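import Mathlib
import Pool.Agent.Helper93.ML.Level
import Pool.Agent.Helper93.ML.Window

/-!
# M5_Match
-/

namespace Pool.Agent.Helper17.ML

open Pool.Agent.Helper93.ML

variable {G : Type} [Group G] {M : Mark G} {cons : List (ℕ × ℕ)} {δ : ℕ}

/-- short reduced words are clean -/
theorem clean_short (hc : ∀ c ∈ cons, 3 ≤ c.2 ∧ c.1 ≤ c.2) {z : List Ltr} (hz : Red z)
    (hl : z.length ≤ 2) : Clean cons z := by
  refine ⟨hz, fun c hcc y hy _ hly => ?_, fun c hcc y hy _ hly => ?_⟩
  · have h1 := hy.length_le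
    have h2 := (hc c hcc).1
    omega
  · have h1 := hy.length_le
    rw [invw_length] at h1
    have h2 := (hc c hcc).1
    omega

/-- the letters are different elements -/
theorem s_inj (I : Inv M cons δ) {x y : Ltr} (h : M.s x = M.s y) : x = y := by
  by_contra hne
  have hr : Red [inv1 x, y] := by
    unfold Red
    refine List.IsChain.cons_cons ?_ (.singleton _)
    rw [inv1_inv1]
    exact fun h' => hne h'.symm
  have h1 := I.geod _ (clean_short I.cons_ok hr (by simp))
  rw [Mark.ev_cons, Mark.ev_singleton, M.s_inv, h, inv_mul_cancel, M.len_one] at h1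
  simp at h1

theorem m5Match : StmtM5Match := by
  intro G _ M cons δ I D
  obtain ⟨Λr, hr⟩ := I.rig D
  refine ⟨Λr + 2 * D + 5, ?_⟩
  intro ζ z' P P' hζ hz' hP hP' hlen
  have hr' := hr ζ z' P P' hζ hz' hP hP'
  have hζg : M.Gd ζ := I.geod ζ hζ
  have hzg : M.Gd z' := hz'
  -- index relations
  have key : ∀ i i' j j', i ≤ i' → i' ≤ ζ.length → j ≤ z'.length → j' ≤ z'.length →
      P * M.ev (ζ.take i) = P' * M.ev (z'.take j) →
      P * M.ev (ζ.take i') = P' * M.ev (z'.take j') →
      (j ≤ j' ∧ j' - j = i' - i) ∨ (j' ≤ j ∧ j - j' = i' - i) := by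
    intro i i' j j' h1 h2 h3 h4 e1 e2
    have g1 := M.pth_geod (P := P) hζg h1 h2
    unfold Mark.pth at g1
    rw [e1, e2] at g1
    rcases le_total j j' with h | h
    · left
      have g2 := M.pth_geod (P := P') hzg h h4
      unfold Mark.pth at g2
      exact ⟨h, by omega⟩
    · right
      have g2 := M.pth_geod (P := P') hzg h h3
      unfold Mark.pth at g2
      rw [M.isGeo.symm] at g2
      exact ⟨h, by omega⟩
  have key2 : ∀ i j, i ≤ ζ.length → j ≤ z'.length →
      P * M.ev (ζ.take i) = P' * M.ev (z'.take j) → j ≤ i + D ∧ i ≤ j + D := by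
    intro i j h1 h2 e1
    have g1 := M.pth_geod (P := P) hζg (Nat.zero_le i) h1
    have g2 := M.pth_geod (P := P') hzg (Nat.zero_le j) h2
    unfold Mark.pth at g1 g2
    rw [e1] at g1
    simp only [List.take_zero, M.ev_nil, mul_one, Nat.sub_zero] at g1 g2
    have t1 := M.isGeo.tri P P' (P' * M.ev (z'.take j))
    have t2 := M.isGeo.tri P' P (P' * M.ev (z'.take j))
    have t3 := M.isGeo.symm P P'
    omega
  set Λ := Λr + 2 * D + 5 with hΛ
  obtain ⟨a, ha, ea⟩ := hr' Λr le_rfl (by omega)
  have main : ∀ i, Λ ≤ i → i + Λ ≤ ζ.length → a + (i - Λr) ≤ z'.length ∧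
      P * M.ev (ζ.take i) = P' * M.ev (z'.take (a + (i - Λr))) := by
    intro i h1 h2
    obtain ⟨j, hj, ej⟩ := hr' i (by omega) (by omega)
    have k1 := key Λr i a j (by omega) (by omega) ha hj ea ej
    have k2 := key2 Λr a (by omega) ha ea
    have k3 := key2 i j (by omega) hj ej
    have k4 : j = a + (i - Λr) := by omega
    subst k4
    exact ⟨hj, ej⟩
  have m0 := main Λ le_rfl (by omega)
  have m1 := main (ζ.length - Λ) (by omega) (by omega)
  refine ⟨a + (Λ - Λr), by omega, ?_, m0.2⟩
  apply List.ext_getElem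
  · simp only [List.length_take, List.length_drop]
    omega
  · intro t h1 h2
    simp only [List.length_take, List.length_drop] at h1 h2
    simp only [List.getElem_take, List.getElem_drop]
    have n1 := (main (Λ + t) (by omega) (by omega)).2
    have n2 := (main (Λ + t + 1) (by omega) (by omega)).2
    have n0 := (main (Λ + t + 1) (by omega) (by omega)).1
    have e1 : a + (Λ + t - Λr) = a + (Λ - Λr) + t := by omega
    have e2 : a + (Λ + t + 1 - Λr) = a + (Λ - Λr) + t + 1 := by omega
    rw [e1] at n1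
    rw [e2] at n2
    rw [List.take_succ_eq_append_getElem (by omega), List.take_succ_eq_append_getElem (by omega),
      M.ev_append, M.ev_append, M.ev_singleton, M.ev_singleton, ← mul_assoc, ← mul_assoc, n1] at n2
    exact s_inj I (mul_left_cancel n2)

end Pool.Agent.Helper17.ML
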